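import Pool.Agent.GK.X.Desc
import Pool.Agent.GR.X.Desc
import Pool.Agent.GKR.Defs

/-!
# GKR/X-Desc: the descents

`desA`: from the totally complex fields with local degrees divisible by `2 ^ (j + 1)` and degree divisible by `2 * M` to
`AllQ` for all fields of degree divisible by `M`; as GK/X/Desc, with `ClM`.  `desM`: from the fields with few real places of
level `i + 1` to all fields of level `i`, degrees divisible by `2 * M` (LEMMA X); as `desR` (GR/X/Desc).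
-/

namespace Pool.Agent.GKR

open NumberField IsDedekindDomain Pool.Agent.HWR Pool.Agent.QD Pool.Agent.H73.AL Pool.Agent.H73.DU
  Pool.Agent.MD Pool.Agent.LD Pool.Agent.GJ Pool.Agent.GK Pool.Agent.GR

/-- the bound for the degrees -/
def bA (c b : ℕ → ℕ → ℕ) (j N : ℕ) : ℕ := bY c b j (b 0 N + N)

/-- `desY` with a divisibility for the totally real fields -/
private theorem desYM {T : Finset ℕ} (hTp : ∀ p ∈ T, p.Prime)
    (hT : ∀ p : ℕ, p.Prime → p < 101 → p ∈ T) (D : LocData T) {a : ℕ → ℝ}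
    (ha : ∀ q : ℕ, |a q| ≤ 2 * Real.sqrt q) (V : Finset ℕ) {i : ℕ} {c : ℕ → ℕ}
    (hc : AlgY i c) (M N N' : ℕ) (hN : ∀ k : ℕ, k ≤ N → c k ≤ N') (hNN : N ≤ N')
    (HR : ∀ F : NF, InfinitePlace.nrComplexPlaces F.F = 0 → M ∣ Module.finrank ℚ F.F →
      Module.finrank ℚ F.F ≤ N' → D.HW a F.F)
    (H : ∀ F : NF, 2 * M ∣ Module.finrank ℚ F.F → Module.finrank ℚ F.F ≤ N' →
      ThinD (i + 1) V T F.F → D.HW a F.F)
    (HC : ∀ Y : NF, M ∣ Module.finrank ℚ Y.F → Module.finrank ℚ Y.F ≤ N' →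
      DvV i V T Y.F → Pool.Agent.TF2.AllQ D a Y.F)
    (K : NF) (hKM : 2 * M ∣ Module.finrank ℚ K.F) (hKN : Module.finrank ℚ K.F ≤ N)
    (hK : ThinD i V T K.F) : D.HW a K.F := by
  obtain ⟨A, B, C, E, Z, Z', h0, h1, h2, h3⟩ := hc T hTp (hT 2 Nat.prime_two (by norm_num)) V K hK
  have hcK := hN _ hKN
  refine lemX hTp hT D ha K A B C E Z Z'
    (HC K ((Dvd.intro_left 2 rfl).trans hKM) (hKN.trans hNN) hK.2).1 ?_ ?_ h0 h1
  · intro X hX
    obtain ⟨g1, g2, g3⟩ := h2 X hX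
    rcases g3 with g3 | g3 | ⟨Y, inst, g4, g5⟩
    · exact H X (hKM.trans g1) (g2.trans hcK) g3
    · exact HR X g3 (((Dvd.intro_left 2 rfl).trans hKM).trans g1) (g2.trans hcK)
    · have g6 : Module.finrank ℚ X.F = 2 * Module.finrank ℚ Y.F := by
        rw [← Module.finrank_mul_finrank ℚ Y.F X.F, g4, mul_comm]
      have g7 : M ∣ Module.finrank ℚ Y.F := by
        have g8 := hKM.trans g1
        rw [g6] at g8
        exact Nat.dvd_of_mul_dvd_mul_left two_pos g8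
      exact (HC Y g7 (by omega) g5).2 X.F g4
  · intro X hX
    obtain ⟨g1, g2, g3⟩ := h3 X hX
    exact (HC X (((Dvd.intro_left 2 rfl).trans hKM).trans g1) (g2.trans hcK) g3).1

theorem desA {T : Finset ℕ} (hTp : ∀ p ∈ T, p.Prime)
    (hT : ∀ p : ℕ, p.Prime → p < 101 → p ∈ T) (D : LocData T) {a : ℕ → ℝ}
    (ha : ∀ q : ℕ, |a q| ≤ 2 * Real.sqrt q) (hfr : FrobRel T a) (V : Finset ℕ)
    {c b : ℕ → ℕ → ℕ} (hc : ∀ i, AlgY i (c i)) (M : ℕ) (hb : ∀ i, ClM i M (b i)) (N j : ℕ)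
    (HR : ∀ (R : Type) [Field R] [NumberField R], InfinitePlace.nrComplexPlaces R = 0 →
      M ∣ Module.finrank ℚ R → Module.finrank ℚ R ≤ bA c b j N → D.HW a R ∧
      ∀ (F : Type) [Field F] [NumberField F] [Algebra R F], Module.finrank R F = 2 → D.HW a F)
    (H : ∀ F : NF, 2 * M ∣ Module.finrank ℚ F.F → Module.finrank ℚ F.F ≤ bA c b j N →
      ThinD (j + 1) V T F.F → D.HW a F.F)
    (Y : NF) (hY : M ∣ Module.finrank ℚ Y.F) (hYN : Module.finrank ℚ Y.F ≤ N) :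
    Pool.Agent.TF2.AllQ D a Y.F := by
  obtain ⟨N0, hN0⟩ : ∃ N0, N0 = b 0 N + N := ⟨_, rfl⟩
  have hbA : bA c b j N = bY c b j N0 := by rw [hN0]; rfl
  rw [hbA] at HR H
  have key : ∀ k : ℕ, k ≤ j → ∀ F : NF, 2 * M ∣ Module.finrank ℚ F.F →
      Module.finrank ℚ F.F ≤ bY c b (j - k) N0 → ThinD (j - k + 1) V T F.F → D.HW a F.F := by
    intro k
    induction k with
    | zero => exact fun _ => H
    | succ k ih =>
      intro hk F hF1 hF2 hF3
      have e : j - k = j - (k + 1) + 1 := by omega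
      have ih' := ih (by omega)
      rw [e] at ih'
      have hb1 : bR (c (j - (k + 1) + 1)) (bY c b (j - (k + 1)) N0) ≤
          bY c b (j - (k + 1) + 1) N0 := Nat.le_add_left _ _
      have hb2 : b (j - (k + 1) + 1) (bR (c (j - (k + 1) + 1)) (bY c b (j - (k + 1)) N0)) ≤
          bY c b (j - (k + 1) + 1) N0 := Nat.le_add_right _ _
      have hb3 : bY c b (j - (k + 1) + 1) N0 ≤ bY c b j N0 := bY_mono c b N0 (by omega)
      refine desYM hTp hT D ha V (hc (j - (k + 1) + 1)) M (bY c b (j - (k + 1)) N0)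
        (bR (c (j - (k + 1) + 1)) (bY c b (j - (k + 1)) N0)) (fun x hx => le_bR hx)
        (Nat.le_add_left _ _) ?_ ?_ ?_ F hF1 hF2 hF3
      · intro X hX1 hX2 hX3
        exact (HR X.F hX1 hX2 (hX3.trans (hb1.trans hb3))).1
      · intro X hX1 hX2 hX3
        exact ih' X hX1 (hX2.trans hb1) hX3
      · intro Y hY1 hY2 hY3
        refine hb (j - (k + 1) + 1) T hTp hT D a ha hfr V _
          (fun R _ _ hR1 hR2 hR3 => HR R hR1 hR2 (hR3.trans (hb2.trans hb3)))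
          (fun X _ _ hX1 hX2 hX3 => ?_) Y.F hY3 hY1 hY2
        exact ih' ⟨X⟩ hX2 (hX3.trans hb2) hX1
  have h1 := key j le_rfl
  rw [Nat.sub_self] at h1
  have h2 : bY c b 0 N0 = b 0 N + N := hN0
  rw [h2] at h1
  have h3 : b 0 N ≤ bY c b j N0 := by
    have := le_bY c b N0 j
    omega
  exact hb 0 T hTp hT D a ha hfr V N
    (fun R _ _ hR1 hR2 hR3 => HR R hR1 hR2 (hR3.trans h3))
    (fun X _ _ hX1 hX2 hX3 => h1 ⟨X⟩ hX2 (hX3.trans (Nat.le_add_right _ _)) hX1)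
    Y.F (dvV_zero V T Y.F) hY hYN

theorem desM {T : Finset ℕ} (hTp : ∀ p ∈ T, p.Prime)
    (hT : ∀ p : ℕ, p.Prime → p < 101 → p ∈ T) (D : LocData T) {a : ℕ → ℝ}
    (ha : ∀ q : ℕ, |a q| ≤ 2 * Real.sqrt q) (V : Finset ℕ) {i g : ℕ} {c : ℕ → ℕ}
    (hc : AlgM i g c) (M N N' : ℕ) (hN : ∀ k : ℕ, k ≤ N → c k ≤ N') (hNN : N ≤ N')
    (HR : ∀ F : NF, InfinitePlace.nrComplexPlaces F.F = 0 → M ∣ Module.finrank ℚ F.F →
      Module.finrank ℚ F.F ≤ N' → D.HW a F.F)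
    (HQ : ∀ Y : NF, M ∣ Module.finrank ℚ Y.F → Module.finrank ℚ Y.F ≤ N' →
      Pool.Agent.TF2.AllQ D a Y.F)
    (H : ∀ F : NF, 2 * M ∣ Module.finrank ℚ F.F → Module.finrank ℚ F.F ≤ N' → RaD g F.F →
      DvV (i + 1) V T F.F → D.HW a F.F)
    (K : NF) (hKM : 2 * M ∣ Module.finrank ℚ K.F) (hKN : Module.finrank ℚ K.F ≤ N)
    (hK : DvV i V T K.F) : D.HW a K.F := by
  obtain ⟨A, B, C, E, Z, Z', h0, h1, h2, h3⟩ := hc T hTp (hT 2 Nat.prime_two (by norm_num)) V K hK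
  have hcK := hN _ hKN
  have hM : M ∣ Module.finrank ℚ K.F := (Dvd.intro_left 2 rfl).trans hKM
  refine lemX hTp hT D ha K A B C E Z Z' (HQ K hM (hKN.trans hNN)).1 ?_ ?_ h0 h1
  · intro X hX
    obtain ⟨g1, g2, g3⟩ := h2 X hX
    rcases g3 with ⟨g3, g4⟩ | g3 | ⟨Y, inst, g4⟩
    · exact H X (hKM.trans g1) (g2.trans hcK) g4 g3
    · exact HR X g3 (hM.trans g1) (g2.trans hcK)
    · have g6 : Module.finrank ℚ X.F = 2 * Module.finrank ℚ Y.F := by
        rw [← Module.finrank_mul_finrank ℚ Y.F X.F, g4, mul_comm]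
      have g7 : M ∣ Module.finrank ℚ Y.F := by
        have g8 := hKM.trans g1
        rw [g6] at g8
        exact Nat.dvd_of_mul_dvd_mul_left two_pos g8
      exact (HQ Y g7 (by omega)).2 X.F g4
  · intro X hX
    obtain ⟨g1, g2⟩ := h3 X hX
    exact (HQ X (hM.trans g1) (g2.trans hcK)).1

end Pool.Agent.GKR
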