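import Pool.Agent.GR.X.Fin
import Pool.Agent.GKR.X.Desc

/-!
# GKR/X-Fin: all number fields of a given degree, from fields with few real places and deep local degrees

`hwv_thR` (GR/X/Fin) removes the poles and the exceptions, `desA` gives the quadratic extensions of all fields of degree
divisible by `M = 2 ^ m * n`, `desM` all fields of level `max i 1` and degree divisible by `2 * M`, `GJ.v_main` all fields of
degree `n`.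
-/

namespace Pool.Agent.GKR

open NumberField IsDedekindDomain Pool.Agent.HWR Pool.Agent.QD Pool.Agent.H73.AL Pool.Agent.LD
  Pool.Agent.TS Pool.Agent.GJ Pool.Agent.GK Pool.Agent.GR

/-- the bound for the degrees -/
noncomputable def bE (B0 : ℕ → ℕ → ℕ → ℕ) (cY : ℕ → ℕ → ℕ) (cM : ℕ → ℕ → ℕ → ℕ)
    (b : ℕ → ℕ → ℕ → ℕ) (i n m : ℕ) (ρ : ℝ) : ℕ :=
  bA cY (fun k => b k (2 ^ m * n)) (i - 1)
    (bR (cM (i - 1 + 1) ⌈2 / ρ⌉₊) (B0 (i - 1 + 1) n (m + 1)))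

theorem le_bA (c b : ℕ → ℕ → ℕ) (j N : ℕ) : N ≤ bA c b j N :=
  (Nat.le_add_left _ _).trans (le_bY _ _ _ _)

theorem v_ev {c' : ℕ → ℕ → ℕ} (hc' : ∀ i, AlgC i (c' i)) {cY : ℕ → ℕ → ℕ}
    (hY : ∀ i, AlgY i (cY i)) {cM : ℕ → ℕ → ℕ → ℕ} (hM : ∀ i g, AlgM i g (cM i g))
    {b : ℕ → ℕ → ℕ → ℕ} (hb : ∀ i M, 0 < M → ClM i M (b i M)) :
    ∃ Bd : ℕ → ℕ → ℕ → ℝ → ℕ, ∀ {T : Finset ℕ} (_ : ∀ p ∈ T, p.Prime)
    (_ : ∀ p : ℕ, p.Prime → p < 101 → p ∈ T) (D : LocData T) (a : ℕ → ℝ)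
    (_ : ∀ q : ℕ, |a q| ≤ 2 * Real.sqrt q) (_ : FrobRel T a)
    (_ : ∀ q : ℕ, ∃ n : ℤ, a q = n) (V : Finset ℕ) (L : List NF) (i n m j : ℕ) (ρ : ℝ)
    (_ : 0 < ρ) (_ : D.HW a ℚ)
    (_ : ∀ (R : Type) [Field R] [NumberField R], InfinitePlace.nrComplexPlaces R = 0 →
      2 ^ m * n ∣ Module.finrank ℚ R → Module.finrank ℚ R ≤ Bd i n m ρ → D.HW a R ∧
      ∀ (F : Type) [Field F] [NumberField F] [Algebra R F], Module.finrank R F = 2 → D.HW a F)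
    (_ : ∀ F : NF, 2 ^ (m + 1) * n ∣ Module.finrank ℚ F.F →
      Module.finrank ℚ F.F ≤ 2 ^ j * Bd i n m ρ → ThinR ρ i V T F.F →
      (∀ X ∈ L, ¬ Nonempty (X.F ≃+* F.F)) → HypQ D a j (2 ^ j * Bd i n m ρ) L F)
    (K : NF) (_ : Module.finrank ℚ K.F = n), D.HW a K.F := by
  obtain ⟨B0, hB0⟩ := v_main hc'
  refine ⟨bE B0 cY cM b, ?_⟩
  intro T hTp hT D a ha hfr haz V L i n m j ρ hρ hQ HR H K hK
  have hn : 0 < n := by
    rw [← hK]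
    exact Module.finrank_pos
  have hi : i ≤ i - 1 + 1 := by omega
  have hMp : 0 < 2 ^ m * n := by positivity
  have e2 : 2 * (2 ^ m * n) = 2 ^ (m + 1) * n := by ring
  have hg : 2 ≤ ρ * (⌈2 / ρ⌉₊ : ℕ) := by
    have h1 := Nat.le_ceil (2 / ρ)
    rwa [div_le_iff₀' hρ] at h1
  have hN0 : B0 (i - 1 + 1) n (m + 1) ≤
      bR (cM (i - 1 + 1) ⌈2 / ρ⌉₊) (B0 (i - 1 + 1) n (m + 1)) := Nat.le_add_left _ _
  have hN1 : bR (cM (i - 1 + 1) ⌈2 / ρ⌉₊) (B0 (i - 1 + 1) n (m + 1)) ≤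
      bE B0 cY cM b i n m ρ := le_bA _ _ _ _
  obtain ⟨V', hV'⟩ := hwv_thR hTp hT D ha hfr haz (ρ := ρ) V (2 ^ (m + 1) * n)
    (bE B0 cY cM b i n m ρ) L (Nat.le_add_left 1 (i - 1)) (j := j)
    (fun F h1 h2 h3 h4 => H F h1 h2 (h3.mono hi) h4)
  -- quadratic extensions
  have all : ∀ Y : NF, 2 ^ m * n ∣ Module.finrank ℚ Y.F →
      Module.finrank ℚ Y.F ≤ bR (cM (i - 1 + 1) ⌈2 / ρ⌉₊) (B0 (i - 1 + 1) n (m + 1)) →
      Pool.Agent.TF2.AllQ D a Y.F := by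
    intro Y h1 h2
    refine desA hTp hT D ha hfr V' hY (2 ^ m * n) (b := fun k => b k (2 ^ m * n))
      (fun k => hb k _ hMp) _ (i - 1) HR ?_ Y h1 h2
    intro F h3 h4 h5
    rw [e2] at h3
    exact hV' F h3 h4 (thinR_of hρ.le h5)
  -- the fields of level `i - 1 + 1`
  have lev : ∀ F : NF, 2 ^ (m + 1) * n ∣ Module.finrank ℚ F.F →
      Module.finrank ℚ F.F ≤ B0 (i - 1 + 1) n (m + 1) → DvV (i - 1 + 1) V' T F.F →
      D.HW a F.F := by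
    intro F h1 h2 h3
    refine desM hTp hT D ha V' (hM (i - 1 + 1) ⌈2 / ρ⌉₊) (2 ^ m * n) _ _
      (fun k hk => le_bR hk) hN0 (fun X g1 g2 g3 => (HR X.F g1 g2 (g3.trans hN1)).1) all
      (fun X g1 g2 g3 g4 => ?_) F (by rw [e2]; exact h1) h2 h3
    rw [e2] at g1
    exact hV' X g1 (g2.trans hN1) (thinR_raD hg g3 (g4.mono (Nat.le_succ _)))
  refine hB0 hTp hT D a ha hfr V' (i - 1 + 1) n (m + 1) hQ (fun F h1 h2 h3 => ?_) lev K hK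
  refine (HR F.F h1 ?_ (h3.trans (hN0.trans hN1))).1
  exact (Dvd.intro_left 2 e2).trans h2

theorem hypQ_mono {T : Finset ℕ} {D : LocData T} {a : ℕ → ℝ} {j N N' : ℕ} (h : N ≤ N')
    {L : List NF} {F : NF} (hF : HypQ D a j N' L F) : HypQ D a j N L F := by
  obtain ⟨Q, g1, g2, g3, g4⟩ := hF
  exact ⟨Q, g1, g2, g3, fun E _ _ _ h5 h6 h7 => g4 E h5 (h6.trans h) h7⟩

theorem thinR_one {ρ : ℝ} (hρ : 1 ≤ ρ) {i : ℕ} {V T : Finset ℕ} {F : Type} [Field F]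
    [NumberField F] (h : DvV i V T F) : ThinR ρ i V T F := by
  refine ⟨?_, h⟩
  have h1 := InfinitePlace.card_add_two_mul_card_eq_rank F
  have h2 : (InfinitePlace.nrRealPlaces F : ℝ) ≤ Module.finrank ℚ F := by
    exact_mod_cast (by omega : InfinitePlace.nrRealPlaces F ≤ Module.finrank ℚ F)
  have h3 : (0 : ℝ) ≤ Module.finrank ℚ F := Nat.cast_nonneg _
  nlinarith [mul_le_mul_of_nonneg_right hρ h3]

/-- `v_ev` for `ρ < 1` and `GJ.v_pol` for `1 ≤ ρ` -/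
theorem v_all {c' : ℕ → ℕ → ℕ} (hc' : ∀ i, AlgC i (c' i)) {cY : ℕ → ℕ → ℕ}
    (hY : ∀ i, AlgY i (cY i)) {cM : ℕ → ℕ → ℕ → ℕ} (hM : ∀ i g, AlgM i g (cM i g))
    {b : ℕ → ℕ → ℕ → ℕ} (hb : ∀ i M, 0 < M → ClM i M (b i M)) :
    ∃ Bd : ℕ → ℕ → ℕ → ℝ → ℕ, ∀ {T : Finset ℕ} (_ : ∀ p ∈ T, p.Prime)
    (_ : ∀ p : ℕ, p.Prime → p < 101 → p ∈ T) (D : LocData T) (a : ℕ → ℝ)
    (_ : ∀ q : ℕ, |a q| ≤ 2 * Real.sqrt q) (_ : FrobRel T a)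
    (_ : ∀ q : ℕ, ∃ n : ℤ, a q = n) (V : Finset ℕ) (L : List NF) (i n m j : ℕ) (ρ : ℝ)
    (_ : 0 < ρ) (_ : D.HW a ℚ)
    (_ : ∀ F : NF, InfinitePlace.nrComplexPlaces F.F = 0 → 2 ^ m * n ∣ Module.finrank ℚ F.F →
      Module.finrank ℚ F.F ≤ Bd i n m ρ → D.HW a F.F)
    (_ : ρ < 1 → ∀ (R : Type) [Field R] [NumberField R], InfinitePlace.nrComplexPlaces R = 0 →
      2 ^ m * n ∣ Module.finrank ℚ R → Module.finrank ℚ R ≤ Bd i n m ρ →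
      ∀ (F : Type) [Field F] [NumberField F] [Algebra R F], Module.finrank R F = 2 → D.HW a F)
    (_ : ∀ F : NF, 2 ^ (m + 1) * n ∣ Module.finrank ℚ F.F →
      Module.finrank ℚ F.F ≤ 2 ^ j * Bd i n m ρ → ThinR ρ i V T F.F →
      (∀ X ∈ L, ¬ Nonempty (X.F ≃+* F.F)) → HypQ D a j (2 ^ j * Bd i n m ρ) L F)
    (K : NF) (_ : Module.finrank ℚ K.F = n), D.HW a K.F := by
  obtain ⟨B1, h1⟩ := v_ev hc' hY hM hb
  obtain ⟨B2, h2⟩ := v_pol hc'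
  refine ⟨fun i n m ρ => B1 i n m ρ + B2 i n (m + 1), ?_⟩
  intro T hTp hT D a ha hfr haz V L i n m j ρ hρ hQ HR HR2 H K hK
  have e1 : B1 i n m ρ ≤ B1 i n m ρ + B2 i n (m + 1) := Nat.le_add_right _ _
  have e2 : B2 i n (m + 1) ≤ B1 i n m ρ + B2 i n (m + 1) := Nat.le_add_left _ _
  by_cases h : ρ < 1
  · refine h1 hTp hT D a ha hfr haz V L i n m j ρ hρ hQ (fun R _ _ g1 g2 g3 =>
      ⟨HR ⟨R⟩ g1 g2 (g3.trans e1), HR2 h R g1 g2 (g3.trans e1)⟩) (fun F g1 g2 g3 g4 => ?_) K hK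
    exact hypQ_mono (Nat.mul_le_mul_left _ e1) (H F g1 (g2.trans (Nat.mul_le_mul_left _ e1)) g3 g4)
  · refine h2 hTp hT D a ha hfr haz V L i n (m + 1) j hQ (fun F g1 g2 g3 => ?_)
      (fun F g1 g2 g3 g4 => ?_) K hK
    · refine HR F g1 ((Dvd.intro_left 2 ?_).trans g2) (g3.trans e2)
      ring
    · exact hypQ_mono (Nat.mul_le_mul_left _ e2) (H F g1 (g2.trans (Nat.mul_le_mul_left _ e2))
        (thinR_one (not_lt.1 h) g3) g4)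

end Pool.Agent.GKR
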