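import Pool.Agent.GR.X.Lst
import Pool.Agent.GKR.Defs

/-!
# GKR/X-Lst: from spans to lists of fields

As GR/X/Lst, for the span `EM`.
-/

namespace Pool.Agent.GKR

open NumberField IsDedekindDomain MulAction Pool.Agent.HWR Pool.Agent.QD Pool.Agent.H73.AL
  Pool.Agent.H73.DU Pool.Agent.MD Pool.Agent.LD Pool.Agent.TS Pool.Agent.GJ Pool.Agent.GK
  Pool.Agent.GR

theorem exaM_of_em {V T : Finset ℕ} {i g : ℕ} {H : Subgroup GQ} (h : Em V T i g H) (X : NF)
    (ψ : X.F →+* AlgebraicClosure ℚ) (hψ : stb ψ = H) : ExaM i g V T X := by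
  obtain ⟨-, ⟨h, h'⟩ | h | ⟨H', h1, h2, h3⟩⟩ := h
  · left
    refine ⟨?_, raD_of ψ (hψ ▸ h')⟩
    rw [← ci_iff ψ, hψ]
    exact h
  · right
    left
    exact tr_complex ψ (hψ ▸ h)
  · right
    right
    obtain ⟨Y, ψ', g1, g2, g3⟩ := exists_nf H' h1
    obtain ⟨j, hj⟩ := sub_of_stb Y X ψ' ψ (by rw [hψ, g1]; exact h2)
    let alg : Algebra Y.F X.F := j.toAlgebra
    refine ⟨Y, alg, ?_⟩
    have h4 : Module.finrank ℚ Y.F * Module.finrank Y.F X.F = Module.finrank ℚ X.F :=
      Module.finrank_mul_finrank ℚ Y.F X.F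
    have h5 := Subgroup.relIndex_mul_index h2
    rw [h3, ← hψ, index_stb ψ, ← g1, index_stb ψ'] at h5
    have h6 : 0 < Module.finrank ℚ Y.F := Module.finrank_pos
    refine Nat.eq_of_mul_eq_mul_left h6 ?_
    rw [h4, ← h5, mul_comm]

theorem em_lists {V T : Finset ℕ} {i g n N : ℕ} {f : Subgroup GQ → ℤ} (hf : f ∈ EM V T i g n N) :
    ∃ A B C E Z Z' : List NF,
      (∀ t : GQ, f (Subgroup.zpowers t) + sM A (Subgroup.zpowers t) +
        2 * sM C (Subgroup.zpowers t) = sM B (Subgroup.zpowers t) +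
          2 * sM E (Subgroup.zpowers t)) ∧
      (∀ P : Pl, PinT T P → ∀ U : Subgroup GQ, U ≤ P.D →
        f U + sM A U + 2 * sM C U + 2 * sM Z U = sM B U + 2 * sM E U + 2 * sM Z' U) ∧
      (∀ X ∈ A ++ B, n ∣ Module.finrank ℚ X.F ∧ Module.finrank ℚ X.F ≤ N ∧ ExaM i g V T X) ∧
      ∀ X ∈ C ++ E, n ∣ Module.finrank ℚ X.F ∧ Module.finrank ℚ X.F ≤ N := by
  unfold EM at hf
  induction hf using AddSubgroup.closure_induction with
  | mem f hf =>
    rcases hf with ⟨H, hH, hn, hB, rfl⟩ | ⟨H, hH, hn, hB, rfl⟩ | ⟨h1, z, hz, h2⟩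
    · obtain ⟨F, ψ, hψ, hm, hd⟩ := exists_nf H hH.1
      refine ⟨[], [F], [], [], [], [], fun t => ?_, fun P _ U _ => ?_, ?_, ?_⟩
      · simp [sM_nil, sM_cons, hm]
      · simp [sM_nil, sM_cons, hm]
      · intro X hX
        simp only [List.nil_append, List.mem_singleton] at hX
        subst hX
        rw [hd]
        exact ⟨hn, hB, exaM_of_em hH X ψ hψ⟩
      · intro X hX
        simp at hX
    · obtain ⟨F, ψ, hψ, hm, hd⟩ := exists_nf H hH
      refine ⟨[], [], [], [F], [], [], fun t => ?_, fun P _ U _ => ?_, ?_, ?_⟩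
      · simp [sM_nil, sM_cons, hm]
      · simp [sM_nil, sM_cons, hm]
      · intro X hX
        simp at hX
      · intro X hX
        simp only [List.nil_append, List.mem_singleton] at hX
        subst hX
        rw [hd]
        exact ⟨hn, hB⟩
    · obtain ⟨Z, Z', hZ⟩ := rc_lists hz
      refine ⟨[], [], [], [], Z, Z', fun t => ?_, fun P hP U hU => ?_, ?_, ?_⟩
      · rw [h1 t]
        simp [sM_nil]
      · rw [h2 P hP U hU]
        have h3 := hZ U
        simp only [sM_nil]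
        linarith
      · intro X hX
        simp at hX
      · intro X hX
        simp at hX
  | zero =>
    refine ⟨[], [], [], [], [], [], fun t => ?_, fun P _ U _ => ?_, ?_, ?_⟩
    · simp [sM_nil]
    · simp [sM_nil]
    · intro X hX
      simp at hX
    · intro X hX
      simp at hX
  | add f f' _ _ h h' =>
    obtain ⟨A, B, C, E, Z, W, a1, a2, a3, a4⟩ := h
    obtain ⟨A', B', C', E', Z', W', b1, b2, b3, b4⟩ := h'
    refine ⟨A ++ A', B ++ B', C ++ C', E ++ E', Z ++ Z', W ++ W', fun t => ?_,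
      fun P hP U hU => ?_, ?_, ?_⟩
    · simp only [sM_append, Pi.add_apply]
      linarith [a1 t, b1 t]
    · simp only [sM_append, Pi.add_apply]
      linarith [a2 P hP U hU, b2 P hP U hU]
    · intro X hX
      simp only [List.mem_append] at hX a3 b3
      rcases hX with (hX | hX) | (hX | hX)
      · exact a3 X (Or.inl hX)
      · exact b3 X (Or.inl hX)
      · exact a3 X (Or.inr hX)
      · exact b3 X (Or.inr hX)
    · intro X hX
      simp only [List.mem_append] at hX a4 b4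
      rcases hX with (hX | hX) | (hX | hX)
      · exact a4 X (Or.inl hX)
      · exact b4 X (Or.inl hX)
      · exact a4 X (Or.inr hX)
      · exact b4 X (Or.inr hX)
  | neg f _ h =>
    obtain ⟨A, B, C, E, Z, W, a1, a2, a3, a4⟩ := h
    refine ⟨B, A, E, C, W, Z, fun t => ?_, fun P hP U hU => ?_, ?_, ?_⟩
    · rw [Pi.neg_apply]
      linarith [a1 t]
    · rw [Pi.neg_apply]
      linarith [a2 P hP U hU]
    · intro X hX
      simp only [List.mem_append] at hX a3
      exact a3 X hX.symm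
    · intro X hX
      simp only [List.mem_append] at hX a4
      exact a4 X hX.symm

/-- `AlgM` from the theorem on subgroups -/
theorem algM_of {i g : ℕ} {b : ℕ → ℕ}
    (h : ∀ (T : Finset ℕ) (_ : ∀ p ∈ T, p.Prime) (_ : 2 ∈ T) (V : Finset ℕ)
      (H : Subgroup GQ), Ci V T i H → pc H ∈ EM V T i g H.index (b H.index)) :
    AlgM i g b := by
  intro T hTp h2 V K hK
  obtain ⟨ψ⟩ : Nonempty (K.F →+* AlgebraicClosure ℚ) := inferInstance
  have h1 := h T hTp h2 V (stb ψ) ((ci_iff ψ).2 hK)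
  have hm : ∀ U, mark K.F U = pc (stb ψ) U := fun U => by rw [mark_eq_pc K.F ψ]; rfl
  obtain ⟨A, B, C, E, Z, Z', a1, a2, a3, a4⟩ := em_lists h1
  rw [index_stb ψ] at a3 a4
  refine ⟨A, B, C, E, Z, Z', ?_, ?_, a3, a4⟩
  · rintro U (⟨t, rfl⟩ | ⟨l, hl, g, hlT, -⟩)
    · change sM (K :: (A ++ (C ++ C))) _ = sM (B ++ (E ++ E)) _
      simp only [sM_cons, sM_append, hm]
      linarith [a1 t]
    · exact absurd hlT (Finset.notMem_empty l)
  · intro l hl hf U hU
    change sM (K :: (A ++ (C ++ C)) ++ (Z ++ Z)) U = sM (B ++ (E ++ E) ++ (Z' ++ Z')) U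
    have h3 := a2 (Pl.mk l 1) hl U (by
      change U ≤ cj 1⁻¹ (decomp ℚ_[l] (emb l))
      rw [inv_one, cj_one]
      exact hU)
    simp only [List.cons_append, sM_cons, sM_append, hm]
    linarith

end Pool.Agent.GKR
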